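import Pool.Agent.QSX.StmtsA
import Pool.Agent.QSX.StmtsB

set_option autoImplicit false

namespace Pool.Agent.QSX.H85

open Pool.Agent.QSX

theorem alg (hGAU : GauStmt) (hBRK : BrkStmt) (hGRD : GrdStmt) (hTRF : TrfStmt) (hCLM : ClmStmt)
    (hALE : AleStmt) : AlgStmt := by
  rintro X Y hX ⟨V⟩
  obtain ⟨A⟩ := hGAU X Y hX V
  obtain ⟨C, h1, h2, h3, h4⟩ := hBRK X Y hX V.S.FF V.P A
  obtain ⟨κ, hκ, C1, hC1⟩ := hGRD X Y hX V.S.FF V.P V.Pb C h1 h2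
    (fun l i k h => by
      obtain ⟨κ, hκ, h'⟩ := h3 l i k h
      exact ⟨κ, hκ, h'⟩) h4
  obtain ⟨C2, hC2⟩ := hTRF X Y hX V.S V.P V.Pb κ C1 hC1
  have hne := hCLM X hX Y.m C2 hC2.2.2.1 hC2.2.2.2
  exact hALE X Y hX V.P V.Pb κ hκ C2 hC2 hne

end Pool.Agent.QSX.H85
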